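import Pool.Agent.Mg.F80dd36.G1a760a

namespace Pool.Agent.Results.MP_80dd36_co.ThreeAllT

open SimpleGraph

theorem result (t : ℕ) (ht : 3 < t) :
    ∃ c C : ℝ, 0 < c ∧ c ≤ C ∧ ∃ n₀ : ℕ, ∀ n : ℕ, n₀ ≤ n →
      (∃ G : SimpleGraph (Fin n), (completeBipartiteGraph (Fin 3) (Fin (t + 1))).Free G ∧
        c * (n : ℝ) ^ 3 ≤ G.copyCount (completeBipartiteGraph (Fin t) (Fin t))) ∧
      (∀ G : SimpleGraph (Fin n), (completeBipartiteGraph (Fin 3) (Fin (t + 1))).Free G →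
        (G.copyCount (completeBipartiteGraph (Fin t) (Fin t)) : ℝ) ≤ C * (n : ℝ) ^ 3) := by
  have ht' : 4 ≤ t := ht
  have hK : 0 < 16 ^ 3 * (2 * 4 ^ t) * (t + t) ^ (t + t) := by positivity
  have hC : 0 < t ^ t * t ^ t := by positivity
  generalize hK' : 16 ^ 3 * (2 * 4 ^ t) * (t + t) ^ (t + t) = K at hK
  have hKr : (1 : ℝ) ≤ K := by exact_mod_cast hK
  have hCr : (1 : ℝ) ≤ ((t ^ t * t ^ t : ℕ) : ℝ) := by exact_mod_cast hC
  refine ⟨1 / K, ((t ^ t * t ^ t : ℕ) : ℝ), by positivity,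
    le_trans (by rw [div_le_one (by positivity)]; exact hKr) hCr, 16 * (2 * t) ^ 3,
    fun n hn => ⟨?_, ?_⟩⟩
  · obtain ⟨G, hG, hc⟩ := Pool.Agent.MP_80dd36_co.lower t ht' n hn
    refine ⟨G, hG.free, ?_⟩
    rw [hK'] at hc
    rw [div_mul_eq_mul_div, one_mul, div_le_iff₀ (by positivity), mul_comm]
    exact_mod_cast hc
  · intro G hG
    have h1 := Pool.Agent.MP_80dd36_co.upper ht' (Pool.Agent.MP_80dd36_co.Cn.of_free hG)
    have h2 := (copyCount_le_labelledCopyCount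
      (G := G) (H := completeBipartiteGraph (Fin t) (Fin t))).trans h1
    rw [Fintype.card_fin, mul_comm] at h2
    exact_mod_cast h2

end Pool.Agent.Results.MP_80dd36_co.ThreeAllT
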