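import Pool.Agent.Mg.F80dd36.G81592c

namespace Pool.Agent.Results.MP_80dd36_co.Unbounded

open SimpleGraph

theorem result (k s t : ℕ) (hk : 1 ≤ k) (hs : 2 ^ (k * (3 * k - 1) / 2 + 1) ≤ s) (hst : s < t) :
    ∃ c : ℝ, 0 < c ∧ ∃ n₀ : ℕ, ∀ n : ℕ, n₀ ≤ n →
      ∃ G : SimpleGraph (Fin n), (completeBipartiteGraph (Fin s) (Fin (t + 1))).Free G ∧
        c * (n : ℝ) ^ (k + 1) ≤ G.copyCount (completeBipartiteGraph (Fin t) (Fin t)) := by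
  obtain ⟨K, n₀, hK, H⟩ := Pool.Agent.MP_80dd36_co.Unb.lower k s t hk
    (by rw [Pool.Agent.MP_80dd36_co.Unb.aa_eq, ← pow_succ']; exact hs) hst
  refine ⟨1 / K, by positivity, n₀, fun n hn => ?_⟩
  obtain ⟨G, h1, h2⟩ := H n hn
  refine ⟨G, h1, ?_⟩
  rw [div_mul_eq_mul_div, one_mul, div_le_iff₀ (by positivity), mul_comm]
  exact_mod_cast h2

end Pool.Agent.Results.MP_80dd36_co.Unbounded
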